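import Pool.Agent.Helper57.SI.Stmts
import Pool.Agent.Helper33.QZ.AR

/-!
# Row AW: the function `Fy` on typical short intervals of the line Re s = 1
-/

set_option autoImplicit false

namespace Pool.Agent.Helper49.SI

open MeasureTheory Set Filter Topology
open Pool.Agent.Helper57.QZ
open Pool.Agent.Helper33.QZ
open Pool.Agent.Helper57.SI

theorem ptU {t : ℝ} (ht : 1 ≤ t) : pt 1 t ∈ U := by
  change 0 < (pt 1 t).im
  rw [pt_im]
  linarith

theorem clamp_cont {F : ℂ → ℂ} (hF : DifferentiableOn ℂ F U) :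
    Continuous (fun s : ℝ => F (pt 1 (max s 1))) := by
  have h1 : Continuous (fun s : ℝ => pt 1 (max s 1)) := by unfold pt; fun_prop
  exact hF.continuousOn.comp_continuous h1 fun s => ptU (le_max_right _ _)

theorem ftc {F : ℂ → ℂ} (hF : DifferentiableOn ℂ F U) {t s : ℝ} (ht : 1 ≤ t) (hs : t ≤ s) :
    ∫ x in t..s, Complex.I * deriv F (pt 1 (max x 1)) = F (pt 1 s) - F (pt 1 t) := by
  have hF' := hF.deriv isOpen_U
  have e1 : ∫ x in t..s, Complex.I * deriv F (pt 1 (max x 1)) =
      ∫ x in t..s, deriv F (pt 1 x) * Complex.I := by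
    refine intervalIntegral.integral_congr fun x hx => ?_
    rw [uIcc_of_le hs] at hx
    rw [max_eq_left (ht.trans hx.1), mul_comm]
  rw [e1]
  refine intervalIntegral.integral_eq_sub_of_hasDerivAt (f := fun x => F (pt 1 x))
    (fun x hx => ?_) ?_
  · rw [uIcc_of_le hs] at hx
    have h3 := (hF.differentiableAt (isOpen_U.mem_nhds (ptU (ht.trans hx.1)))).hasDerivAt
    have h4 : HasDerivAt (fun x : ℝ => pt 1 x) Complex.I x := by
      unfold pt
      have := ((Complex.ofRealCLM.hasDerivAt (x := x)).mul_const Complex.I).const_add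
        ((1 : ℝ) : ℂ)
      simpa using this
    exact HasDerivAt.comp x h3 h4
  · refine ContinuousOn.intervalIntegrable ?_
    rw [uIcc_of_le hs]
    have h1 : ContinuousOn (fun x : ℝ => deriv F (pt 1 (max x 1)) * Complex.I) (Icc t s) :=
      ((clamp_cont hF').mul continuous_const).continuousOn
    refine h1.congr fun x hx => ?_
    simp only
    rw [max_eq_left (ht.trans hx.1)]

theorem amgm {a k : ℝ} (hk : 0 < k) : a ≤ (2 * k)⁻¹ * a ^ 2 + k / 2 := by
  have e4 : (2 * k)⁻¹ * a ^ 2 + k / 2 - a = (2 * k)⁻¹ * (a - k) ^ 2 := by field_simp; ring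
  have : 0 ≤ (2 * k)⁻¹ * (a - k) ^ 2 := by positivity
  linarith

/-- a pointwise bound from mean squares over an interval of length one -/
theorem sob {F : ℂ → ℂ} (hF : DifferentiableOn ℂ F U) {t k : ℝ} (ht : 1 ≤ t) (hk : 0 < k)
    (h : ∫ s in t..(t + 1), (G F 1 s + G (deriv F) 1 s) ≤ 2 * k ^ 2) :
    ‖F (pt 1 t)‖ ≤ 2 * k := by
  have hF' := hF.deriv isOpen_U
  have htl : t ≤ t + 1 := by linarith
  obtain ⟨P, hP⟩ : ∃ P : ℝ → ℂ, P = fun s => F (pt 1 (max s 1)) := ⟨_, rfl⟩
  obtain ⟨Q, hQ⟩ : ∃ Q : ℝ → ℂ, Q = fun s => deriv F (pt 1 (max s 1)) := ⟨_, rfl⟩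
  have hPc : Continuous P := by rw [hP]; exact clamp_cont hF
  have hQc : Continuous Q := by rw [hQ]; exact clamp_cont hF'
  have hP1 : ∀ s, 1 ≤ s → P s = F (pt 1 s) := by
    intro s hs
    rw [hP]
    simp only
    rw [max_eq_left hs]
  have hGP : ∀ s, G F 1 s = ‖P s‖ ^ 2 := by intro s; rw [hP]; rfl
  have hGQ : ∀ s, G (deriv F) 1 s = ‖Q s‖ ^ 2 := by intro s; rw [hQ]; rfl
  have key : ∀ s ∈ Icc t (t + 1), ‖F (pt 1 t)‖ ≤ ‖P s‖ + ∫ x in t..(t + 1), ‖Q x‖ := by
    intro s hs
    have e := ftc hF ht hs.1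
    have e2 : ‖∫ x in t..s, Complex.I * Q x‖ ≤ ∫ x in t..(t + 1), ‖Q x‖ := by
      refine (intervalIntegral.norm_integral_le_integral_norm hs.1).trans ?_
      simp only [norm_mul, Complex.norm_I, one_mul]
      exact intervalIntegral.integral_mono_interval le_rfl hs.1 hs.2
        (Eventually.of_forall fun x => norm_nonneg _) (hQc.norm.intervalIntegrable _ _)
    have e3 : F (pt 1 t) = P s - ∫ x in t..s, Complex.I * Q x := by
      rw [hP1 s (ht.trans hs.1), hQ, e]
      ring
    rw [e3]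
    exact (norm_sub_le _ _).trans (by linarith)
  have k1 : ‖F (pt 1 t)‖ ≤ (∫ s in t..(t + 1), ‖P s‖) + ∫ x in t..(t + 1), ‖Q x‖ := by
    have h1 : ∫ s in t..(t + 1), ‖F (pt 1 t)‖ ≤
        ∫ s in t..(t + 1), (‖P s‖ + ∫ x in t..(t + 1), ‖Q x‖) := by
      refine intervalIntegral.integral_mono_on htl ?_ ?_ key
      · exact continuous_const.intervalIntegrable _ _
      · exact (hPc.norm.add continuous_const).intervalIntegrable _ _
    rw [intervalIntegral.integral_add (hPc.norm.intervalIntegrable _ _)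
      (continuous_const.intervalIntegrable _ _), intervalIntegral.integral_const,
      intervalIntegral.integral_const] at h1
    simpa using h1
  have k2 : (∫ s in t..(t + 1), ‖P s‖) + ∫ x in t..(t + 1), ‖Q x‖ ≤
      ∫ s in t..(t + 1), ((2 * k)⁻¹ * (G F 1 s + G (deriv F) 1 s) + k) := by
    rw [← intervalIntegral.integral_add (hPc.norm.intervalIntegrable _ _)
      (hQc.norm.intervalIntegrable _ _)]
    refine intervalIntegral.integral_mono_on htl ?_ ?_ fun s _ => ?_
    · exact (hPc.norm.add hQc.norm).intervalIntegrable _ _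
    · exact Continuous.intervalIntegrable ((continuous_const.mul
        ((G_cont' hF continuous_const continuous_id).add
          (G_cont' hF' continuous_const continuous_id))).add continuous_const) _ _
    · rw [hGP, hGQ]
      have a1 := amgm (a := ‖P s‖) hk
      have a2 := amgm (a := ‖Q s‖) hk
      rw [mul_add]
      linarith
  have ii : IntervalIntegrable (fun s => (2 * k)⁻¹ * (G F 1 s + G (deriv F) 1 s)) volume t
      (t + 1) :=
    Continuous.intervalIntegrable (continuous_const.mul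
      ((G_cont' hF continuous_const continuous_id).add
        (G_cont' hF' continuous_const continuous_id))) _ _
  rw [intervalIntegral.integral_add ii (continuous_const.intervalIntegrable _ _),
    intervalIntegral.integral_const_mul, intervalIntegral.integral_const] at k2
  have k3 : (2 * k)⁻¹ * ∫ s in t..(t + 1), (G F 1 s + G (deriv F) 1 s) ≤
      (2 * k)⁻¹ * (2 * k ^ 2) := mul_le_mul_of_nonneg_left h (by positivity)
  have k4 : (2 * k)⁻¹ * (2 * k ^ 2) = k := by field_simp
  have k5 : (t + 1 - t) • k = k := by simp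
  rw [k5] at k2
  linarith

theorem st_AW (h1 : Pool.Agent.Helper57.QZ.ST_MS) (hMK : ST_MK) : ST_AW := by
  intro η hη κ hκ H hH
  obtain ⟨k, hk0⟩ : ∃ k : ℝ, k = η / 2 := ⟨_, rfl⟩
  have hk : 0 < k := by rw [hk0]; linarith [hη.1]
  obtain ⟨κ', hκ'⟩ : ∃ κ' : ℝ, κ' = κ * (2 * k ^ 2) / ((H + 2) * (4161 * 4)) := ⟨_, rfl⟩
  have hH2 : 0 < H + 2 := by linarith
  have hκ'0 : 0 < κ' := by rw [hκ']; positivity
  obtain ⟨y₀, hC₀⟩ := h1 (1 / 4) ⟨by norm_num, by norm_num⟩ κ' hκ'0
  refine ⟨y₀, fun y hy => ?_⟩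
  obtain ⟨T₀, hT₀, hMS⟩ := hC₀ y hy
  refine ⟨max (2 * T₀) (2 * H + 4), lt_max_of_lt_right (by linarith), fun T hT => ?_⟩
  have hTT : 2 * T₀ ≤ T := (le_max_left _ _).trans hT
  have hT4 : 2 * H + 4 ≤ T := (le_max_right _ _).trans hT
  have hF := Fy_diff y
  set F := Fy y with hFd
  have hF' : DifferentiableOn ℂ (deriv F) U := hF.deriv isOpen_U
  have hF'' : DifferentiableOn ℂ (deriv (deriv F)) U := hF'.deriv isOpen_U
  have gi : ∀ {F : ℂ → ℂ}, DifferentiableOn ℂ F U → ∀ x u v : ℝ,
      IntervalIntegrable (fun t => G F x t) volume u v := by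
    intro F hF x u v
    exact Continuous.intervalIntegrable (G_cont' hF continuous_const continuous_id) _ _
  obtain ⟨M, hMd⟩ : ∃ M : ℝ, M = κ' * (4 * T) := ⟨_, rfl⟩
  have p0 : ∀ S : ℝ, T / 2 ≤ S → ∀ x ∈ Icc (3 / 4 : ℝ) 2, ∀ u v : ℝ, S - 1 ≤ u → u ≤ v →
      v ≤ 2 * S + 1 → ∫ t in u..v, G F x t ≤ κ' * S := by
    intro S hS x hx u v hu huv hv
    have h2 := hMS S (by linarith) x ⟨by linarith [hx.1], hx.2⟩
    have h3 : ∫ t in (S - 1)..(2 * S + 1), G F x t ≤ κ' * S := by
      refine le_trans (le_of_eq ?_) h2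
      refine intervalIntegral.integral_congr fun t ht => ?_
      rw [uIcc_of_le (by linarith)] at ht
      exact G_eq _ _ (by linarith [ht.1])
    refine le_trans ?_ h3
    exact intervalIntegral.integral_mono_interval hu huv hv
      (Eventually.of_forall fun x => G_nonneg _ _ _) (gi hF _ _ _)
  have g0 : ∀ x ∈ Icc (3 / 4 : ℝ) 2, ∫ t in (T / 2 - 1)..(4 * T + 1), G F x t ≤ M := by
    intro x hx
    have a1 := p0 (T / 2) le_rfl x hx (T / 2 - 1) T le_rfl (by linarith) (by linarith)
    have a2 := p0 T (by linarith) x hx T (2 * T) (by linarith) (by linarith) (by linarith)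
    have a3 := p0 (2 * T) (by linarith) x hx (2 * T) (4 * T + 1) (by linarith) (by linarith)
      (by linarith)
    have a4 := intervalIntegral.integral_add_adjacent_intervals (gi hF x (T / 2 - 1) T)
      (gi hF x T (2 * T))
    have a5 := intervalIntegral.integral_add_adjacent_intervals (gi hF x (T / 2 - 1) (2 * T))
      (gi hF x (2 * T) (4 * T + 1))
    rw [← a5, ← a4, hMd]
    nlinarith
  have hρ : (0 : ℝ) < 1 / 8 := by norm_num
  have sub0 : ∀ u v : ℝ, T / 2 - 1 ≤ u → u ≤ v → v ≤ 4 * T + 1 → ∀ x ∈ Icc (3 / 4 : ℝ) 2,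
      ∫ t in u..v, G F x t ≤ M := by
    intro u v hu huv hv x hx
    refine le_trans ?_ (g0 x hx)
    exact intervalIntegral.integral_mono_interval hu huv hv
      (Eventually.of_forall fun x => G_nonneg _ _ _) (gi hF _ _ _)
  have g1 : ∀ x ∈ Icc (1 - 1 / 8 : ℝ) (1 + 1 / 8),
      ∫ t in (T / 2 - 1 / 8)..(4 * T + 1 / 8), G (deriv F) x t ≤ M / (1 / 8) ^ 2 := by
    refine lineD hF hρ (by linarith) (by linarith) fun x hx => ?_
    exact sub0 _ _ (by linarith) (by linarith) (by linarith) x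
      ⟨by linarith [hx.1], by linarith [hx.2]⟩
  have g2 : ∀ x ∈ Icc (1 : ℝ) 1, ∫ t in (T / 2)..(4 * T), G (deriv (deriv F)) x t ≤
      M / (1 / 8) ^ 2 / (1 / 8) ^ 2 := lineD hF' hρ (by linarith) (by linarith) g1
  have g1' : ∫ t in (T / 2)..(4 * T), G (deriv F) 1 t ≤ M / (1 / 8) ^ 2 := by
    refine le_trans ?_ (g1 1 ⟨by norm_num, by norm_num⟩)
    exact intervalIntegral.integral_mono_interval (by linarith) (by linarith) (by linarith)
      (Eventually.of_forall fun x => G_nonneg _ _ _) (gi hF' _ _ _)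
  have g0' := sub0 (T / 2) (4 * T) (by linarith) (by linarith) (by linarith) 1
    ⟨by norm_num, by norm_num⟩
  have g2' := g2 1 ⟨le_rfl, le_rfl⟩
  obtain ⟨f, hf⟩ : ∃ f : ℝ → ℝ, f = fun t => G F 1 t + G (deriv F) 1 t +
      G (deriv (deriv F)) 1 t := ⟨_, rfl⟩
  have hfc : Continuous f := by
    rw [hf]
    exact ((G_cont' hF continuous_const continuous_id).add
      (G_cont' hF' continuous_const continuous_id)).add
      (G_cont' hF'' continuous_const continuous_id)
  have hf0 : ∀ t, 0 ≤ f t := by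
    intro t
    rw [hf]
    exact add_nonneg (add_nonneg (G_nonneg _ _ _) (G_nonneg _ _ _)) (G_nonneg _ _ _)
  have hfi : ∫ t in (T / 2)..(4 * T), f t ≤ 4161 * M := by
    rw [hf, intervalIntegral.integral_add ((gi hF _ _ _).add (gi hF' _ _ _)) (gi hF'' _ _ _),
      intervalIntegral.integral_add (gi hF _ _ _) (gi hF' _ _ _)]
    norm_num at g1' g2' ⊢
    linarith
  obtain ⟨E, hE1, hE2, hE3⟩ := hMK f H (2 * k ^ 2) T hH (by positivity) hT4 hfc.continuousOn hf0
  refine ⟨E, hE1, ?_, fun u hu huE t ht => ?_⟩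
  · refine hE2.trans ?_
    have h5 : (H + 2) / (2 * k ^ 2) * ∫ t in (T / 2)..(4 * T), f t ≤
        (H + 2) / (2 * k ^ 2) * (4161 * M) := mul_le_mul_of_nonneg_left hfi (by positivity)
    refine h5.trans (le_of_eq ?_)
    rw [hMd, hκ']
    field_simp
  · have h6 := hE3 u hu huE
    have ht1 : 1 ≤ t := by linarith [hu.1, ht.1]
    have h7 : ∫ s in t..(t + 1), f s ≤ 2 * k ^ 2 := by
      refine le_trans ?_ h6
      exact intervalIntegral.integral_mono_interval (by linarith [ht.1]) (by linarith)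
        (by linarith [ht.2]) (Eventually.of_forall fun x => hf0 x)
        (hfc.intervalIntegrable _ _)
    have hη2 : 2 * k = η := by rw [hk0]; ring
    rw [← hη2]
    constructor
    · refine sob hF ht1 hk (le_trans ?_ h7)
      refine intervalIntegral.integral_mono_on (by linarith) ((gi hF _ _ _).add (gi hF' _ _ _))
        (hfc.intervalIntegrable _ _) fun s _ => ?_
      rw [hf]
      have := G_nonneg (deriv (deriv F)) 1 s
      simp only
      linarith
    · refine sob hF' ht1 hk (le_trans ?_ h7)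
      refine intervalIntegral.integral_mono_on (by linarith) ((gi hF' _ _ _).add (gi hF'' _ _ _))
        (hfc.intervalIntegrable _ _) fun s _ => ?_
      rw [hf]
      have := G_nonneg F 1 s
      simp only
      linarith

end Pool.Agent.Helper49.SI
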